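import Mathlib
import Pool.Agent.Lib.MP_87840f_co.Defs
import Pool.Agent.Lib.MP_87840f_co.Tourn

/-!
# MP_87840f_co: a lower bound for the number of edges of 3-chromatic uniform cliques

For every `n ≥ 2` there is a 3-chromatic `n`-uniform clique with at least `(⌊n/2⌋ + 1)^(n-1)` edges.

Take a tournament on `{0, ..., n-2}` with all outdegrees at most `(n-1)/2`; the block of the label
`i` is `{i} × ({0, ..., n-1} \ out i)`. The core consists of the sets: block of `i` together with
one of `(j, j)`, `(j, i)` for every `j ∈ out i`. It is an `n`-uniform clique, and every minimal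
cover of it has exactly `n - 1` elements. Add all these covers, each with one new vertex.
-/

namespace Pool.Agent.Results.MP_87840f_co.EdgeLowerBound

open Pool.Agent.Lib.MP_87840f_co

/-- For every `n ≥ 2` there is a 3-chromatic `n`-uniform clique with at least
`(⌊n/2⌋ + 1)^(n-1)` edges. -/
theorem result : ∀ n : ℕ, 2 ≤ n →
    ∃ F : Finset (Finset ℕ), IsThreeChromaticClique n F ∧ (n / 2 + 1) ^ (n - 1) ≤ F.card :=
  fun n hn => Tourn.exists_clique n hn

end Pool.Agent.Results.MP_87840f_co.EdgeLowerBound
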