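import Mathlib
import Pool.Agent.Lib.MP_87840f_co.Defs
import Pool.Agent.Lib.MP_87840f_co.Spec.Theta

/-!
# MP_87840f_co: the numbers of edges of 3-chromatic uniform cliques

There is a constant `θ` with `2 ≤ θ ≤ √7` such that every 3-chromatic `n`-uniform clique has at
least `θ^(n-1)` edges, while for all `C > θ` and `c > e` and all large `n` every integer `m` with
`C^n ≤ m ≤ (n/c)^n` is the number of edges of a 3-chromatic `n`-uniform clique.

(`θ` is the infimum of `|F|^(1/(n-1))` over all 3-chromatic `n`-uniform cliques `F`, `n ≥ 2`.)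
-/

namespace Pool.Agent.Results.MP_87840f_co.EdgeSpectrum

open Pool.Agent.Lib.MP_87840f_co

/-- The numbers of edges of 3-chromatic `n`-uniform cliques: none is below `θ^(n-1)`, and every
integer between `C^n` and `(n/c)^n` is one of them (`C > θ`, `c > e`, `n` large). -/
theorem result : ∃ θ : ℝ, 2 ≤ θ ∧ θ ≤ Real.sqrt 7 ∧
    (∀ n : ℕ, 2 ≤ n → ∀ F : Finset (Finset ℕ), IsThreeChromaticClique n F →
      θ ^ (n - 1) ≤ (F.card : ℝ)) ∧
    ∀ C c : ℝ, θ < C → Real.exp 1 < c → ∃ n₀ : ℕ, ∀ n : ℕ, n₀ ≤ n → ∀ m : ℕ,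
      C ^ n ≤ (m : ℝ) → (m : ℝ) ≤ ((n : ℝ) / c) ^ n →
        ∃ F : Finset (Finset ℕ), IsThreeChromaticClique n F ∧ F.card = m :=
  Spec.edge_spectrum_theta

end Pool.Agent.Results.MP_87840f_co.EdgeSpectrum
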