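import Mathlib
import Pool.Agent.Lib.MP_87840f_co.Defs
import Pool.Agent.Lib.MP_87840f_co.KSComb

/-!
# MP_87840f_co: 3-chromatic cliques with a strong colouring in `2n - 1` colours

A strong colouring of a hypergraph is a colouring in which the vertices of each edge have distinct
colours. A strong colouring of a 3-chromatic `n`-uniform clique has at least `2n - 1` colours. The
3-chromatic `n`-uniform cliques with a strong colouring in `2n - 1` colours have exactly
`C(2n-1, n)` edges, and their vertex numbers are exactly the `v` with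
`2n-1 ≤ v ≤ 2n-2 + (1/2) * C(2n-2, n-1)`.
-/

namespace Pool.Agent.Results.MP_87840f_co.StronglyColourable

open Pool.Agent.Lib.MP_87840f_co

/-- Let `n ≥ 2`. (1) If a 3-chromatic `n`-uniform clique has a strong colouring in `q` colours,
then `2n - 1 ≤ q`. (2) There is a 3-chromatic `n`-uniform clique with a strong colouring in
`2n - 1` colours, with `e` edges and `v` vertices, if and only if `e = C(2n-1, n)` and
`2n-1 ≤ v ≤ 2n-2 + C(2n-2,n-1)/2`. -/
theorem result : ∀ n : ℕ, 2 ≤ n →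
    (∀ (q : ℕ) (F : Finset (Finset ℕ)), IsThreeChromaticClique n F →
      (∃ c : ℕ → Fin q, ∀ A ∈ F, Set.InjOn c (A : Set ℕ)) → 2 * n - 1 ≤ q) ∧
    (∀ e v : ℕ, (∃ F : Finset (Finset ℕ), IsThreeChromaticClique n F ∧
        (∃ c : ℕ → Fin (2 * n - 1), ∀ A ∈ F, Set.InjOn c (A : Set ℕ)) ∧
        F.card = e ∧ (F.biUnion id).card = v) ↔
      e = (2 * n - 1).choose n ∧ 2 * n - 1 ≤ v ∧
        2 * v ≤ 2 * (2 * n - 2) + (2 * n - 2).choose (n - 1)) := by
  intro n hn
  refine ⟨?_, fun e v => ⟨?_, ?_⟩⟩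
  · rintro q F hF ⟨c, hc⟩
    exact KS.colours_ge hn hF.1 hF.2.2 hc
  · rintro ⟨F, hF, ⟨c, hc⟩, rfl, rfl⟩
    exact ⟨KS.card_edges hn hF.1 hF.2.2 hc, KS.card_ge hn hF.1 hF.2.2 hc,
      KS.card_le hn hF.1 hF.2.2 hc⟩
  · rintro ⟨rfl, h1, h2⟩
    obtain ⟨F, hF, ⟨c, hc⟩, hv⟩ := KS.exists_clique n v hn h1 h2
    exact ⟨F, hF, ⟨c, hc⟩, KS.card_edges hn hF.1 hF.2.2 hc, hv⟩

end Pool.Agent.Results.MP_87840f_co.StronglyColourable
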