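import Mathlib
import Pool.Agent.Lib.MP_87840f_co.Defs
import Pool.Agent.Lib.MP_87840f_co.Transfer
import Pool.Agent.Lib.MP_87840f_co.Constr

/-!
# MP_87840f_co: the number of vertices of 3-chromatic uniform cliques

Every vertex number between `2n-1` and `2n-2 + (1/2) * C(2n-2, n-1)` is attained by a 3-chromatic
`n`-uniform clique, and for large `n` no 3-chromatic `n`-uniform clique has more than
`(1 + o(1)) * (1/2) * C(2n-2, n-1)` vertices. So `N(n)` is asymptotically equal to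
`(1/2) * C(2n-2, n-1)`.
-/

namespace Pool.Agent.Results.MP_87840f_co.VertexAsymptotics

open Pool.Agent.Lib.MP_87840f_co

theorem upper (ε : ℝ) (hε : 0 < ε) :
    ∃ n₀ : ℕ, ∀ n ≥ n₀, ∀ (α : Type) [DecidableEq α] (F : Finset (Finset α)),
      IsThreeChromaticClique n F →
        ((F.biUnion id).card : ℝ) ≤ (1 + ε) * ((2 * n - 2).choose (n - 1) / 2 : ℝ) := by
  obtain ⟨n₀, h⟩ := limit_bound_sharp (ε / 2) (by positivity)
  refine ⟨n₀, fun n hn α _ F hF => ?_⟩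
  obtain ⟨k, L, D, hk1, hkn, hL, hD, hδ, hpos, hfin⟩ := h n hn
  obtain ⟨m, G, hG, hG2, hcard⟩ := transfer hF.1 hF.2.2
  have := finite_bound_sharp hk1 hkn hL hD hδ hG hG2
  rw [← hcard]
  have hN : (0 : ℝ) ≤ ((2 * n - 2).choose (n - 1) : ℝ) := by positivity
  have h3 := mul_le_mul_of_nonneg_right hfin hN
  have h4 : ((G.biUnion id).card : ℝ) * (1 - 2 * k / (L : ℝ) - 2 * k * (L + 1) / (D : ℝ)) ≤
      ((1 / 2 + ε / 2) * ((2 * n - 2).choose (n - 1) : ℝ)) *
        (1 - 2 * k / (L : ℝ) - 2 * k * (L + 1) / (D : ℝ)) :=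
    (this.trans h3).trans_eq (by ring)
  have h5 := le_of_mul_le_mul_right h4 hpos
  calc ((G.biUnion id).card : ℝ) ≤ (1 / 2 + ε / 2) * ((2 * n - 2).choose (n - 1) : ℝ) := h5
    _ = (1 + ε) * ((2 * n - 2).choose (n - 1) / 2 : ℝ) := by ring

/-- (1) For every `n ≥ 2`, every `v` with `2n-1 ≤ v ≤ 2n-2 + C(2n-2,n-1)/2` is the number of
vertices of a 3-chromatic `n`-uniform clique. (2) For every `ε > 0` and all large `n`, every
3-chromatic `n`-uniform clique has at most `(1 + ε) * C(2n-2,n-1)/2` vertices. -/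
theorem result :
    (∀ n v : ℕ, 2 ≤ n → 2 * n - 1 ≤ v →
      (v : ℝ) ≤ 2 * n - 2 + ((2 * n - 2).choose (n - 1) / 2 : ℝ) →
        ∃ F : Finset (Finset ℕ), IsThreeChromaticClique n F ∧ (F.biUnion id).card = v) ∧
    (∀ ε : ℝ, 0 < ε → ∃ n₀ : ℕ, ∀ n ≥ n₀, ∀ (α : Type) [DecidableEq α] (F : Finset (Finset α)),
      IsThreeChromaticClique n F →
        ((F.biUnion id).card : ℝ) ≤ (1 + ε) * ((2 * n - 2).choose (n - 1) / 2 : ℝ)) := by
  refine ⟨fun n v hn h1 h2 => construction n v hn h1 ?_, fun ε hε => upper ε hε⟩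
  have h3 : (2 * v : ℝ) ≤ 2 * (2 * n - 2) + ((2 * n - 2).choose (n - 1) : ℝ) := by linarith
  have h4 : ((2 * n - 2 : ℕ) : ℝ) = 2 * n - 2 := by
    rw [Nat.cast_sub (by omega)]; push_cast; ring
  rw [← h4] at h3
  exact_mod_cast h3

end Pool.Agent.Results.MP_87840f_co.VertexAsymptotics
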